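import Pool.Agent.ZPK.StmtsD

set_option autoImplicit false

namespace Pool.Agent.ZPK.H77

open Pool.Agent.ZPT Pool.Agent.ZP3 Pool.Agent.ZPK

/-! ### Counting -/

/-- rows with base `b` -/
noncomputable def rowsB (p : ℕ) {m : ℕ} (r₀ r₁ : Fin m) (b : Fin m → ℤ) : Finset (Fin m → ℤ) :=
  Fintype.piFinset (fun r => if r = r₀ ∨ r = r₁ then
    Finset.Ico ((p : ℤ) * b r) ((p : ℤ) * b r + p) else {b r})

/-- the bases -/
noncomputable def baseC (p : ℕ) {m : ℕ} (r₀ r₁ : Fin m) : Finset (Fin m → ℤ) :=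
  Fintype.piFinset (fun r => if r = r₀ ∨ r = r₁ then Finset.Ico (0 : ℤ) (p : ℤ)
    else Finset.Ico (0 : ℤ) ((p : ℤ) ^ 2))

/-- the base of a row -/
def bas (p : ℕ) {m : ℕ} (r₀ r₁ : Fin m) (x : Fin m → ℤ) : Fin m → ℤ :=
  fun r => if r = r₀ ∨ r = r₁ then x r / (p : ℤ) else x r

theorem prod_two {m : ℕ} (r₀ r₁ : Fin m) (h : r₀ ≠ r₁) (p : ℕ) :
    ∏ r : Fin m, (if r = r₀ ∨ r = r₁ then p else 1) = p ^ 2 := by
  classical
  rw [Finset.prod_ite, Finset.prod_const_one, mul_one, Finset.prod_const]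
  have : (Finset.univ.filter (fun r : Fin m => r = r₀ ∨ r = r₁)) = {r₀, r₁} := by
    ext r
    simp
  rw [this, Finset.card_pair h]

theorem card_rowsB (p : ℕ) {m : ℕ} (r₀ r₁ : Fin m) (h : r₀ ≠ r₁) (b : Fin m → ℤ) :
    (rowsB p r₀ r₁ b).card = p ^ 2 := by
  classical
  unfold rowsB
  rw [Fintype.card_piFinset, ← prod_two r₀ r₁ h p]
  refine Finset.prod_congr rfl (fun r _ => ?_)
  split_ifs <;> simp

theorem card_baseC (p : ℕ) {m : ℕ} (r₀ r₁ : Fin m) (h : r₀ ≠ r₁) :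
    (baseC p r₀ r₁).card * p ^ 2 = (p ^ 2) ^ m := by
  classical
  unfold baseC
  rw [Fintype.card_piFinset]
  have h1 : ∀ r : Fin m, (if r = r₀ ∨ r = r₁ then Finset.Ico (0 : ℤ) (p : ℤ)
      else Finset.Ico (0 : ℤ) ((p : ℤ) ^ 2)).card = if r = r₀ ∨ r = r₁ then p else p ^ 2 := by
    intro r
    split_ifs
    · simp
    · rw [Int.card_Ico, sub_zero]
      have : ((p : ℤ) ^ 2) = ((p ^ 2 : ℕ) : ℤ) := by push_cast; rfl
      rw [this, Int.toNat_natCast]
  rw [Finset.prod_congr rfl (fun r _ => h1 r), ← prod_two r₀ r₁ h p, ← Finset.prod_mul_distrib]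
  rw [Finset.prod_congr rfl (g := fun _ : Fin m => ∏ r : Fin m, (if r = r₀ ∨ r = r₁ then p else 1))]
  · rw [Finset.prod_const, Finset.card_univ, Fintype.card_fin]
  · intro r _
    rw [prod_two r₀ r₁ h p]
    split_ifs
    · ring
    · ring

theorem mem_rowsB_bas (p : ℕ) (hp : 0 < p) {m : ℕ} (r₀ r₁ : Fin m) (x : Fin m → ℤ) :
    x ∈ rowsB p r₀ r₁ (bas p r₀ r₁ x) := by
  unfold rowsB bas
  rw [Fintype.mem_piFinset]
  intro r
  have hp' : (0 : ℤ) < (p : ℤ) := by exact_mod_cast hp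
  by_cases h : r = r₀ ∨ r = r₁
  · rw [if_pos h, if_pos h, Finset.mem_Ico]
    have h1 := Int.mul_ediv_add_emod (x r) (p : ℤ)
    have h2 := Int.emod_nonneg (x r) hp'.ne'
    have h3 := Int.emod_lt_of_pos (x r) hp'
    constructor <;> linarith
  · rw [if_neg h, if_neg h, Finset.mem_singleton]

theorem bas_mem (p : ℕ) (hp : 0 < p) {m : ℕ} (r₀ r₁ : Fin m) (x : Fin m → ℤ)
    (hx : ∀ r, 0 ≤ x r ∧ x r < (p : ℤ) ^ 2) : bas p r₀ r₁ x ∈ baseC p r₀ r₁ := by
  unfold baseC bas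
  rw [Fintype.mem_piFinset]
  intro r
  have hp' : (0 : ℤ) < (p : ℤ) := by exact_mod_cast hp
  by_cases h : r = r₀ ∨ r = r₁
  · rw [if_pos h, if_pos h, Finset.mem_Ico]
    refine ⟨Int.ediv_nonneg (hx r).1 hp'.le, ?_⟩
    apply Int.ediv_lt_of_lt_mul hp'
    have := (hx r).2
    rw [pow_two] at this
    exact this
  · rw [if_neg h, if_neg h, Finset.mem_Ico]
    exact hx r

theorem rowsB_sub (p : ℕ) {m : ℕ} (r₀ r₁ : Fin m) (b x y : Fin m → ℤ)
    (hx : x ∈ rowsB p r₀ r₁ b) (hy : y ∈ rowsB p r₀ r₁ b) :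
    (∀ r, r ≠ r₀ → r ≠ r₁ → x r = y r) ∧ |x r₀ - y r₀| < (p : ℤ) ∧ |x r₁ - y r₁| < (p : ℤ) := by
  unfold rowsB at hx hy
  rw [Fintype.mem_piFinset] at hx hy
  refine ⟨?_, ?_, ?_⟩
  · intro r h0 h1
    have hn : ¬ (r = r₀ ∨ r = r₁) := by
      rintro (h | h)
      · exact h0 h
      · exact h1 h
    have h2 := hx r
    have h3 := hy r
    rw [if_neg hn, Finset.mem_singleton] at h2 h3
    rw [h2, h3]
  · have h2 := hx r₀
    have h3 := hy r₀
    rw [if_pos (Or.inl rfl), Finset.mem_Ico] at h2 h3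
    rw [abs_lt]
    constructor <;> linarith [h2.1, h2.2, h3.1, h3.2]
  · have h2 := hx r₁
    have h3 := hy r₁
    rw [if_pos (Or.inr rfl), Finset.mem_Ico] at h2 h3
    rw [abs_lt]
    constructor <;> linarith [h2.1, h2.2, h3.1, h3.2]

/-- Schwartz-Zippel with all the sets of cardinality `p ^ 2` -/
theorem sz (p : ℕ) (hp : 0 < p) {R : Type} [CommRing R] [IsDomain R] [DecidableEq R] (n D : ℕ)
    (F : MvPolynomial (Fin n) R) (hF : F ≠ 0) (hD : ∀ i, F.degreeOf i ≤ D)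
    (S : Fin n → Finset R) (hS : ∀ i, (S i).card = p ^ 2) :
    ((Fintype.piFinset S).filter (fun v => MvPolynomial.eval v F = 0)).card * p ^ 2 ≤
      n * D * (p ^ 2) ^ n := by
  have h := MvPolynomial.schwartz_zippel_sum_degreeOf hF S
  have h1 : (∏ i : Fin n, ((S i).card : ℚ≥0)) = ((p ^ 2) ^ n : ℕ) := by
    rw [Finset.prod_congr rfl (g := fun _ => ((p ^ 2 : ℕ) : ℚ≥0)) (fun i _ => by rw [hS i])]
    rw [Finset.prod_const, Finset.card_univ, Fintype.card_fin]
    push_cast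
    rfl
  rw [h1] at h
  have h2 : (∑ i : Fin n, ((F.degreeOf i : ℚ≥0) / ((S i).card : ℚ≥0))) ≤
      ((n * D : ℕ) : ℚ≥0) / ((p ^ 2 : ℕ) : ℚ≥0) := by
    calc (∑ i : Fin n, ((F.degreeOf i : ℚ≥0) / ((S i).card : ℚ≥0)))
        ≤ ∑ _i : Fin n, (D : ℚ≥0) / ((p ^ 2 : ℕ) : ℚ≥0) := by
          refine Finset.sum_le_sum (fun i _ => ?_)
          rw [hS i]
          exact div_le_div_of_nonneg_right (by exact_mod_cast hD i) (by positivity)
      _ = ((n * D : ℕ) : ℚ≥0) / ((p ^ 2 : ℕ) : ℚ≥0) := by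
          rw [Finset.sum_const, Finset.card_univ, Fintype.card_fin, nsmul_eq_mul]
          push_cast
          rw [mul_div_assoc]
  have h3 := h.trans h2
  have hp2 : (0 : ℚ≥0) < ((p ^ 2 : ℕ) : ℚ≥0) := by
    exact_mod_cast pow_pos hp 2
  have hp3 : (0 : ℚ≥0) < (((p ^ 2) ^ n : ℕ) : ℚ≥0) := by
    exact_mod_cast pow_pos (pow_pos hp 2) n
  rw [div_le_div_iff₀ hp3 hp2] at h3
  exact_mod_cast h3

theorem count (p : ℕ) (hp : 0 < p) {R : Type} [CommRing R] [IsDomain R] (n m D : ℕ)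
    (r₀ r₁ : Fin m) (h01 : r₀ ≠ r₁) (ρ : (Fin m → ℤ) → R)
    (hρ : ∀ x y : Fin m → ℤ, (∀ r, r ≠ r₀ → r ≠ r₁ → x r = y r) → |x r₀ - y r₀| < (p : ℤ) →
      |x r₁ - y r₁| < (p : ℤ) → ρ x = ρ y → x = y)
    (F : MvPolynomial (Fin n) R) (hF : F ≠ 0) (hD : ∀ i, F.degreeOf i ≤ D)
    (E : Set (Fin n → Fin m → ℤ)) (hE : ∀ x ∈ E, (∀ i r, 0 ≤ x i r ∧ x i r < (p : ℤ) ^ 2) ∧
      MvPolynomial.eval (fun i => ρ (x i)) F = 0) :
    E.ncard * p ^ 2 ≤ n * D * p ^ (2 * (n * m)) := by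
  classical
  let B : Finset (Fin n → Fin m → ℤ) := (Fintype.piFinset (fun _ : Fin n =>
    Fintype.piFinset (fun _ : Fin m => Finset.Ico (0 : ℤ) ((p : ℤ) ^ 2)))).filter
      (fun x => MvPolynomial.eval (fun i => ρ (x i)) F = 0)
  have hB : ∀ x, x ∈ B ↔ (∀ i r, 0 ≤ x i r ∧ x i r < (p : ℤ) ^ 2) ∧
      MvPolynomial.eval (fun i => ρ (x i)) F = 0 := by
    intro x
    simp only [B, Finset.mem_filter, Fintype.mem_piFinset, Finset.mem_Ico]
  have hEB : E ⊆ (B : Set (Fin n → Fin m → ℤ)) := by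
    intro x hx
    rw [Finset.mem_coe, hB]
    exact hE x hx
  have hcard : E.ncard ≤ B.card := by
    have := Set.ncard_le_ncard hEB (Finset.finite_toSet B)
    rwa [Set.ncard_coe_finset] at this
  let f : (Fin n → Fin m → ℤ) → (Fin n → Fin m → ℤ) := fun x i => bas p r₀ r₁ (x i)
  let C : Finset (Fin n → Fin m → ℤ) := Fintype.piFinset (fun _ : Fin n => baseC p r₀ r₁)
  have hf : ∀ x ∈ B, f x ∈ C := by
    intro x hx
    rw [hB] at hx
    simp only [C, Fintype.mem_piFinset]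
    intro i
    exact bas_mem p hp r₀ r₁ (x i) (hx.1 i)
  have hfib : ∀ c ∈ C, (B.filter (fun x => f x = c)).card * p ^ 2 ≤ n * D * (p ^ 2) ^ n := by
    intro c _
    let S : Fin n → Finset R := fun i => (rowsB p r₀ r₁ (c i)).image ρ
    have hS : ∀ i, (S i).card = p ^ 2 := by
      intro i
      simp only [S]
      rw [Finset.card_image_of_injOn, card_rowsB p r₀ r₁ h01]
      intro x hx y hy hxy
      rw [Finset.mem_coe] at hx hy
      obtain ⟨g1, g2, g3⟩ := rowsB_sub p r₀ r₁ (c i) x y hx hy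
      exact hρ x y g1 g2 g3 hxy
    refine le_trans (Nat.mul_le_mul_right _ ?_) (sz p hp n D F hF hD S hS)
    refine Finset.card_le_card_of_injOn (fun x i => ρ (x i)) ?_ ?_
    · intro x hx
      rw [Finset.mem_coe, Finset.mem_filter] at hx
      obtain ⟨hx1, hx2⟩ := hx
      rw [hB] at hx1
      rw [Finset.mem_coe, Finset.mem_filter, Fintype.mem_piFinset]
      refine ⟨fun i => ?_, hx1.2⟩
      apply Finset.mem_image_of_mem
      rw [← hx2]
      exact mem_rowsB_bas p hp r₀ r₁ (x i)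
    · intro x hx y hy hxy
      rw [Finset.mem_coe, Finset.mem_filter] at hx hy
      funext i
      have m1 : x i ∈ rowsB p r₀ r₁ (c i) := by
        rw [← hx.2]
        exact mem_rowsB_bas p hp r₀ r₁ (x i)
      have m2 : y i ∈ rowsB p r₀ r₁ (c i) := by
        rw [← hy.2]
        exact mem_rowsB_bas p hp r₀ r₁ (y i)
      obtain ⟨g1, g2, g3⟩ := rowsB_sub p r₀ r₁ (c i) (x i) (y i) m1 m2
      exact hρ (x i) (y i) g1 g2 g3 (congrFun hxy i)
  have hsum : B.card = ∑ c ∈ C, (B.filter (fun x => f x = c)).card :=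
    Finset.card_eq_sum_card_fiberwise hf
  calc E.ncard * p ^ 2 ≤ B.card * p ^ 2 := Nat.mul_le_mul_right _ hcard
    _ = ∑ c ∈ C, (B.filter (fun x => f x = c)).card * p ^ 2 := by
        rw [hsum, Finset.sum_mul]
    _ ≤ ∑ _c ∈ C, n * D * (p ^ 2) ^ n := Finset.sum_le_sum hfib
    _ = C.card * (n * D * (p ^ 2) ^ n) := by
        rw [Finset.sum_const, smul_eq_mul]
    _ = n * D * ((baseC p r₀ r₁).card * p ^ 2) ^ n := by
        have : C.card = (baseC p r₀ r₁).card ^ n := by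
          simp only [C]
          rw [Fintype.card_piFinset, Finset.prod_const, Finset.card_univ, Fintype.card_fin]
        rw [this, mul_pow]
        ring
    _ = n * D * p ^ (2 * (n * m)) := by
        rw [card_baseC p r₀ r₁ h01, ← pow_mul, ← pow_mul]
        congr 2
        ring

/-! ### Reduction -/

section red

variable (K : Type) [NormedField K] [IsUltrametricDist K]

/-- the ring of integers -/
def OO : Subring K where
  carrier := {x | ‖x‖ ≤ 1}
  mul_mem' := by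
    intro x y hx hy
    rw [Set.mem_ofPred_eq] at hx hy ⊢
    rw [norm_mul]
    exact mul_le_one₀ hx (norm_nonneg _) hy
  one_mem' := by
    rw [Set.mem_ofPred_eq, norm_one]
  add_mem' := by
    intro x y hx hy
    exact (IsUltrametricDist.norm_add_le_max x y).trans (max_le hx hy)
  zero_mem' := by
    rw [Set.mem_ofPred_eq, norm_zero]
    exact zero_le_one
  neg_mem' := by
    intro x hx
    rw [Set.mem_ofPred_eq] at hx ⊢
    rw [norm_neg]
    exact hx

/-- the maximal ideal -/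
def MM : Ideal (OO K) where
  carrier := {x | ‖(x : K)‖ < 1}
  add_mem' := by
    intro x y hx hy
    rw [Set.mem_ofPred_eq] at hx hy ⊢
    exact lt_of_le_of_lt (IsUltrametricDist.norm_add_le_max (x : K) (y : K)) (max_lt hx hy)
  zero_mem' := by
    rw [Set.mem_ofPred_eq]
    rw [ZeroMemClass.coe_zero, norm_zero]
    exact zero_lt_one
  smul_mem' := by
    intro c x hx
    rw [Set.mem_ofPred_eq] at hx ⊢
    have hc : ‖(c : K)‖ ≤ 1 := c.2
    have e : ((c • x : OO K) : K) = (c : K) * (x : K) := rfl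
    rw [e, norm_mul]
    exact lt_of_le_of_lt (mul_le_of_le_one_left (norm_nonneg _) hc) hx

theorem mem_MM (x : OO K) : x ∈ MM K ↔ ‖(x : K)‖ < 1 := Iff.rfl

instance MM_prime : (MM K).IsPrime where
  ne_top' := by
    intro h
    have h1 : (1 : OO K) ∈ MM K := by rw [h]; trivial
    rw [mem_MM, OneMemClass.coe_one, norm_one] at h1
    exact lt_irrefl _ h1
  mem_or_mem' := by
    intro x y hxy
    by_contra hcon
    push Not at hcon
    obtain ⟨hx, hy⟩ := hcon
    rw [mem_MM, not_lt] at hx hy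
    rw [mem_MM, MulMemClass.coe_mul, norm_mul] at hxy
    have := one_le_mul_of_one_le_of_one_le hx hy
    linarith

theorem mk_eq (x y : OO K) : Ideal.Quotient.mk (MM K) x = Ideal.Quotient.mk (MM K) y ↔
    ‖(x : K) - (y : K)‖ < 1 := by
  rw [Ideal.Quotient.eq, mem_MM]
  rfl

/-- The reduction of a polynomial. -/
theorem exists_red (n D : ℕ) (F : MvPolynomial (Fin n) K) (h1 : ∀ d, ‖MvPolynomial.coeff d F‖ ≤ 1)
    (h2 : ∃ d, ‖MvPolynomial.coeff d F‖ = 1) (h3 : ∀ i, MvPolynomial.degreeOf i F ≤ D) :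
    ∃ G : MvPolynomial (Fin n) (OO K ⧸ MM K), G ≠ 0 ∧ (∀ i, G.degreeOf i ≤ D) ∧
      ∀ y : Fin n → OO K, ‖MvPolynomial.eval (fun i => (y i : K)) F‖ < 1 →
        MvPolynomial.eval (fun i => Ideal.Quotient.mk (MM K) (y i)) G = 0 := by
  let F' : MvPolynomial (Fin n) (OO K) :=
    ∑ d ∈ F.support, MvPolynomial.monomial d (⟨MvPolynomial.coeff d F, h1 d⟩ : OO K)
  have hF' : MvPolynomial.map (OO K).subtype F' = F := by
    simp only [F', map_sum, MvPolynomial.map_monomial]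
    exact MvPolynomial.support_sum_monomial_coeff F
  have hc : ∀ d, ((MvPolynomial.coeff d F' : OO K) : K) = MvPolynomial.coeff d F := by
    intro d
    rw [← hF', MvPolynomial.coeff_map]
    rfl
  refine ⟨MvPolynomial.map (Ideal.Quotient.mk (MM K)) F', ?_, ?_, ?_⟩
  · intro h0
    obtain ⟨d, hd⟩ := h2
    have h4 : MvPolynomial.coeff d (MvPolynomial.map (Ideal.Quotient.mk (MM K)) F') = 0 := by
      rw [h0, MvPolynomial.coeff_zero]
    rw [MvPolynomial.coeff_map, Ideal.Quotient.eq_zero_iff_mem, mem_MM, hc, hd] at h4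
    exact lt_irrefl _ h4
  · intro i
    rw [MvPolynomial.degreeOf_le_iff]
    intro d hd
    rw [MvPolynomial.mem_support_iff, MvPolynomial.coeff_map] at hd
    refine MvPolynomial.degreeOf_le_iff.1 (h3 i) d ?_
    rw [MvPolynomial.mem_support_iff, ← hc]
    intro h0
    apply hd
    have : MvPolynomial.coeff d F' = 0 := by
      apply Subtype.ext
      rw [h0]
      rfl
    rw [this, map_zero]
  · intro y hy
    have e1 : MvPolynomial.eval (fun i => Ideal.Quotient.mk (MM K) (y i))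
        (MvPolynomial.map (Ideal.Quotient.mk (MM K)) F') =
        Ideal.Quotient.mk (MM K) (MvPolynomial.eval y F') := by
      rw [MvPolynomial.eval_map, MvPolynomial.eval, MvPolynomial.coe_eval₂Hom,
        MvPolynomial.eval₂_comp_left, RingHom.comp_id]
      rfl
    have e2 : ((MvPolynomial.eval y F' : OO K) : K) =
        MvPolynomial.eval (fun i => (y i : K)) F := by
      have e3 : MvPolynomial.eval (fun i => (y i : K)) (MvPolynomial.map (OO K).subtype F') =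
          (OO K).subtype (MvPolynomial.eval y F') := by
        rw [MvPolynomial.eval_map, MvPolynomial.eval, MvPolynomial.coe_eval₂Hom,
          MvPolynomial.eval₂_comp_left, RingHom.comp_id]
        rfl
      rw [hF'] at e3
      rw [e3]
      rfl
    rw [e1, Ideal.Quotient.eq_zero_iff_mem, mem_MM, e2]
    exact hy

end red

theorem norm_sv_le {K : Type} [NormedField K] [IsUltrametricDist K] {m : ℕ} (β : Fin m → K)
    (hβ : ∀ r, ‖β r‖ ≤ 1) (x : Fin m → ℤ) : ‖sv β x‖ ≤ 1 := by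
  unfold sv
  refine IsUltrametricDist.norm_sum_le_of_forall_le_of_nonneg zero_le_one (fun r _ => ?_)
  rw [norm_mul]
  exact mul_le_one₀ (IsUltrametricDist.norm_intCast_le_one K (x r)) (norm_nonneg _) (hβ r)

theorem norm_int_lt {p : ℕ} (hp : p.Prime) {K : Type} [NormedField K] [CharZero K]
    (hE : Ext p K) (z : ℤ) : ‖((z : ℤ) : K)‖ < 1 ↔ (p : ℤ) ∣ z := by
  have := Fact.mk hp
  have h := hE (z : ℚ)
  have e : (((z : ℚ)) : K) = (z : K) := by push_cast; rfl
  rw [e] at h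
  rw [h, ← padicNorm.int_lt_one_iff (p := p) z]
  exact_mod_cast Iff.rfl

/-- two coordinates -/
theorem two {p : ℕ} (hp : p.Prime) {K : Type} [NormedField K] [CharZero K] [IsUltrametricDist K]
    (hE : Ext p K) (b₀ b₁ : K) (h0 : ‖b₀‖ = 1) (h1 : ‖b₁‖ ≤ 1)
    (h : ∀ z : ℤ, ‖b₁ - z * b₀‖ = 1) (u₀ u₁ : ℤ)
    (hu : ‖(u₀ : K) * b₀ + (u₁ : K) * b₁‖ < 1) : (p : ℤ) ∣ u₀ ∧ (p : ℤ) ∣ u₁ := by
  have hd1 : (p : ℤ) ∣ u₁ := by
    by_contra hn
    have hcop : IsCoprime (p : ℤ) u₁ :=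
      (Prime.coprime_iff_not_dvd (Nat.prime_iff_prime_int.1 hp)).2 hn
    obtain ⟨a, v, hav⟩ := hcop
    have e : b₁ - ((-(v * u₀) : ℤ) : K) * b₀ =
        (v : K) * ((u₀ : K) * b₀ + (u₁ : K) * b₁) + ((a : K) * b₁) * (p : K) := by
      have hav' : (a : K) * (p : K) + (v : K) * (u₁ : K) = 1 := by exact_mod_cast hav
      push_cast
      linear_combination (-b₁) * hav'
    have hlt : ‖b₁ - ((-(v * u₀) : ℤ) : K) * b₀‖ < 1 := by
      rw [e]
      refine lt_of_le_of_lt (IsUltrametricDist.norm_add_le_max _ _) (max_lt ?_ ?_)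
      · rw [norm_mul]
        exact lt_of_le_of_lt (mul_le_of_le_one_left (norm_nonneg _)
          (IsUltrametricDist.norm_intCast_le_one K v)) hu
      · rw [norm_mul, norm_mul]
        have hpK : ‖(p : K)‖ < 1 := by
          have := (norm_int_lt hp hE (p : ℤ)).2 (dvd_refl _)
          rwa [Int.cast_natCast] at this
        refine lt_of_le_of_lt (mul_le_of_le_one_left (norm_nonneg _) ?_) hpK
        exact mul_le_one₀ (IsUltrametricDist.norm_intCast_le_one K a) (norm_nonneg _) h1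
    rw [h] at hlt
    exact lt_irrefl _ hlt
  refine ⟨?_, hd1⟩
  rw [← norm_int_lt hp hE u₀]
  have hu1 : ‖(u₁ : K)‖ < 1 := (norm_int_lt hp hE u₁).2 hd1
  have e : (u₀ : K) * b₀ = ((u₀ : K) * b₀ + (u₁ : K) * b₁) - (u₁ : K) * b₁ := by ring
  have e2 : ‖(u₀ : K)‖ = ‖(u₀ : K) * b₀‖ := by rw [norm_mul, h0, mul_one]
  rw [e2, e, sub_eq_add_neg]
  refine lt_of_le_of_lt (IsUltrametricDist.norm_add_le_max _ _) (max_lt hu ?_)
  rw [norm_neg, norm_mul]
  exact lt_of_le_of_lt (mul_le_of_le_one_right (norm_nonneg _) h1) hu1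

theorem cgp : CgpStmt := by
  intro p hp K _ _ _ _ hE n m D β hβ ν hν F hF1 hF2 hF3
  obtain ⟨hβ1, r₀, r₁, h01, hr0, hr1⟩ := hβ
  obtain ⟨G, hG0, hGD, hG⟩ := exists_red K n D F hF1 hF2 hF3
  have hsv : ∀ x : Fin m → ℤ, ‖sv β x * ν‖ ≤ 1 := by
    intro x
    rw [norm_mul, hν, mul_one]
    exact norm_sv_le β hβ1 x
  let ρ : (Fin m → ℤ) → OO K ⧸ MM K := fun x => Ideal.Quotient.mk (MM K) ⟨sv β x * ν, hsv x⟩
  have hρeq : ∀ x y : Fin m → ℤ, ρ x = ρ y ↔ ‖sv β x - sv β y‖ < 1 := by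
    intro x y
    simp only [ρ]
    rw [mk_eq]
    have : (((⟨sv β x * ν, hsv x⟩ : OO K) : K) - ((⟨sv β y * ν, hsv y⟩ : OO K) : K)) =
        (sv β x - sv β y) * ν := by
      simp only
      ring
    rw [this, norm_mul, hν, mul_one]
  refine count p hp.pos n m D r₀ r₁ h01 ρ ?_ G hG0 hGD _ ?_
  · intro x y h1 h2 h3 h4
    rw [hρeq] at h4
    have e : sv β x - sv β y = ((x r₀ - y r₀ : ℤ) : K) * β r₀ + ((x r₁ - y r₁ : ℤ) : K) * β r₁ := by
      unfold sv
      rw [← Finset.sum_sub_distrib]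
      rw [Finset.sum_eq_add r₀ r₁ h01 _ (fun h => absurd (Finset.mem_univ _) h)
        (fun h => absurd (Finset.mem_univ _) h)]
      · push_cast
        ring
      · intro r _ hr
        rw [h1 r hr.1 hr.2, sub_self]
    rw [e] at h4
    obtain ⟨d0, d1⟩ := two hp hE (β r₀) (β r₁) hr0 (hβ1 r₁) hr1 _ _ h4
    have z0 := Int.eq_zero_of_abs_lt_dvd d0 h2
    have z1 := Int.eq_zero_of_abs_lt_dvd d1 h3
    funext r
    by_cases g0 : r = r₀
    · rw [g0]; linarith
    · by_cases g1 : r = r₁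
      · rw [g1]; linarith
      · exact h1 r g0 g1
  · intro x hx
    obtain ⟨hx1, a, ha, hxa⟩ := hx
    refine ⟨hx1, ?_⟩
    have key := hG (fun i => ⟨sv β (a i) * ν, hsv (a i)⟩) ha
    have e : (fun i => ρ (x i)) = fun i => ρ (a i) := by
      funext i
      rw [hρeq]
      unfold sv
      rw [← Finset.sum_sub_distrib]
      have : ∀ r ∈ (Finset.univ : Finset (Fin m)), ‖((x i r : ℤ) : K) * β r - ((a i r : ℤ) : K) * β r‖
          ≤ ‖(p : K)‖ := by
        intro r _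
        obtain ⟨c, hc⟩ := hxa i r
        have e1 : ((x i r : ℤ) : K) * β r - ((a i r : ℤ) : K) * β r =
            ((p : K) * ((p : K) * (c : K))) * β r := by
          have : ((x i r : ℤ) : K) - ((a i r : ℤ) : K) = (p : K) ^ 2 * (c : K) := by
            rw [← Int.cast_sub, hc]
            push_cast
            rfl
          rw [← sub_mul, this]
          ring
        rw [e1, norm_mul, norm_mul]
        have g1 : ‖(p : K) * (c : K)‖ ≤ 1 := by
          have := IsUltrametricDist.norm_intCast_le_one K ((p : ℤ) * c)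
          push_cast at this
          exact this
        calc ‖(p : K)‖ * ‖(p : K) * (c : K)‖ * ‖β r‖ ≤ ‖(p : K)‖ * 1 * 1 := by
              apply mul_le_mul (mul_le_mul_of_nonneg_left g1 (norm_nonneg _)) (hβ1 r)
                (norm_nonneg _)
              exact mul_nonneg (norm_nonneg _) zero_le_one
          _ = ‖(p : K)‖ := by ring
      have hpK : ‖(p : K)‖ < 1 := by
        have := (norm_int_lt hp hE (p : ℤ)).2 (dvd_refl _)
        rwa [Int.cast_natCast] at this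
      exact lt_of_le_of_lt (IsUltrametricDist.norm_sum_le_of_forall_le_of_nonneg
        (norm_nonneg _) this) hpK
    rw [e]
    exact key

end Pool.Agent.ZPK.H77
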