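import Pool.Agent.ZPK.StmtsG

set_option autoImplicit false

namespace Pool.Agent.ZPK.H77

open Pool.Agent.ZPT Pool.Agent.ZP3 Pool.Agent.ZPK

theorem rs_finite (p : ℕ) {n m : ℕ} (E : Set (Fin n → Fin m → ℤ)) : (Rs p E).Finite := by
  classical
  refine Set.Finite.subset (Finset.finite_toSet (Fintype.piFinset (fun _ : Fin n =>
    Fintype.piFinset (fun _ : Fin m => Finset.Ico (0 : ℤ) ((p : ℤ) ^ 2))))) ?_
  intro x hx
  rw [Finset.mem_coe, Fintype.mem_piFinset]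
  intro i
  rw [Fintype.mem_piFinset]
  intro r
  rw [Finset.mem_Ico]
  exact hx.1 i r

theorem rs_le (p : ℕ) {n m : ℕ} (E A B : Set (Fin n → Fin m → ℤ))
    (h : ∀ a ∈ E, a ∈ A ∨ a ∈ B) : (Rs p E).ncard ≤ (Rs p A).ncard + (Rs p B).ncard := by
  refine le_trans (Set.ncard_le_ncard (t := Rs p A ∪ Rs p B) ?_
    ((rs_finite p A).union (rs_finite p B))) (Set.ncard_union_le _ _)
  intro x hx
  obtain ⟨h1, a, ha, h2⟩ := hx
  rcases h a ha with h3 | h3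
  · exact Or.inl ⟨h1, a, h3, h2⟩
  · exact Or.inr ⟨h1, a, h3, h2⟩

theorem cnk (cdi : CdiStmt) (cfa : CfaStmt) (cfb : CfbStmt) (cnx : CnxStmt) (cgq : CgqStmt) :
    CnkStmt := by
  intro p hp h11 K _ _ _ hExt Log hLog n m β hβ hUr ν hν u₁ e A E hu₁ hZU hEp hA hA0
  obtain ⟨c1, c2⟩ := cdi p hp K hExt n m β hβ ν hν.2 e A (fun i => hA i 0) hA0
  obtain ⟨c3, c4⟩ := cfa p hp h11 K hExt n m β hβ ν hν.2 e A hA0
  have c5 := cfb p hp h11 K hExt n m β hβ ν hν.2 e A hA0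
  have c6 := cnx p hp K hExt n m β hβ ν hν.2 e A E hZU hEp hA hA0
  have c7 := cgq p hp (by omega) K hExt Log hLog n m β hβ hUr ν hν u₁ e A hu₁ (fun i => hA i 0)
  set E1 := {a : Fin n → Fin m → ℤ | ¬ ∀ i, ‖sv β (a i)‖ = 1} with hE1
  set E2 := {a : Fin n → Fin m → ℤ | (∀ i, ‖sv β (a i)‖ = 1) ∧ ¬ Di e A (gv β ν a)} with hE2
  set E3 := {a : Fin n → Fin m → ℤ | (∀ i, ‖sv β (a i)‖ = 1) ∧
    ¬ ∀ d, 1 ≤ d → FI {i | e i = d} (fun i => A i 0 / gv β ν a i)} with hE3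
  set E4 := {a : Fin n → Fin m → ℤ | (∀ i, ‖sv β (a i)‖ = 1) ∧
    ¬ ∀ d, 1 ≤ d → FI {i | e i = d} (fun i => gv β ν a i / A i 0)} with hE4
  set E5 := {a : Fin n → Fin m → ℤ | (∀ i, ‖sv β (a i)‖ = 1) ∧ Di e A (gv β ν a) ∧
    ¬ ∀ v, 1 ≤ e v → FIo {i | e i = e v ∧ i ≠ v}
      (fun i => A i 0 * A v 0 / (gv β ν a i * A v 0 - A i 0 * gv β ν a v))
      (-(A v 0 / gv β ν a v))} with hE5
  set E6 := {a : Fin n → Fin m → ℤ | (∀ i, ‖sv β (a i)‖ = 1) ∧ Di e A (gv β ν a) ∧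
    ¬ GenX e A (gv β ν a)} with hE6
  set E7 := {a : Fin n → Fin m → ℤ | (∀ i, ‖sv β (a i)‖ = 1) ∧
    ¬ GenQ p Log u₁ e A (gv β ν a)} with hE7
  have key : ∀ a ∈ {a : Fin n → Fin m → ℤ | ¬ ((∀ i, ‖sv β (a i)‖ = 1) ∧ Di e A (gv β ν a) ∧
      Gen p Log u₁ e A (gv β ν a))}, a ∈ E1 ∨ a ∈ (E2 ∪ (E3 ∪ (E4 ∪ (E5 ∪ (E6 ∪ E7))))) := by
    intro a ha
    by_cases h1 : ∀ i, ‖sv β (a i)‖ = 1
    · by_cases h2 : Di e A (gv β ν a)
      · by_cases h3 : ∀ d, 1 ≤ d → FI {i | e i = d} (fun i => A i 0 / gv β ν a i)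
        · by_cases h4 : ∀ d, 1 ≤ d → FI {i | e i = d} (fun i => gv β ν a i / A i 0)
          · by_cases h5 : ∀ v, 1 ≤ e v → FIo {i | e i = e v ∧ i ≠ v}
              (fun i => A i 0 * A v 0 / (gv β ν a i * A v 0 - A i 0 * gv β ν a v))
              (-(A v 0 / gv β ν a v))
            · by_cases h6 : GenX e A (gv β ν a)
              · by_cases h7 : GenQ p Log u₁ e A (gv β ν a)
                · exact absurd ⟨h1, h2, ⟨h3, h4, h5, h6, h7⟩⟩ ha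
                · exact Or.inr (Or.inr (Or.inr (Or.inr (Or.inr (Or.inr ⟨h1, h7⟩)))))
              · exact Or.inr (Or.inr (Or.inr (Or.inr (Or.inr (Or.inl ⟨h1, h2, h6⟩)))))
            · exact Or.inr (Or.inr (Or.inr (Or.inr (Or.inl ⟨h1, h2, h5⟩))))
          · exact Or.inr (Or.inr (Or.inr (Or.inl ⟨h1, h4⟩)))
        · exact Or.inr (Or.inr (Or.inl ⟨h1, h3⟩))
      · exact Or.inr (Or.inl ⟨h1, h2⟩)
    · exact Or.inl h1
  have s1 := rs_le p _ _ _ key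
  have s2 := rs_le p (E2 ∪ (E3 ∪ (E4 ∪ (E5 ∪ (E6 ∪ E7))))) E2 _ (fun a ha => ha)
  have s3 := rs_le p (E3 ∪ (E4 ∪ (E5 ∪ (E6 ∪ E7)))) E3 _ (fun a ha => ha)
  have s4 := rs_le p (E4 ∪ (E5 ∪ (E6 ∪ E7))) E4 _ (fun a ha => ha)
  have s5 := rs_le p (E5 ∪ (E6 ∪ E7)) E5 _ (fun a ha => ha)
  have s6 := rs_le p (E6 ∪ E7) E6 _ (fun a ha => ha)
  have hpp : p ≤ p ^ 2 := by
    rw [pow_two]
    exact Nat.le_mul_of_pos_left p hp.pos
  have d1 := (Nat.mul_le_mul_left (Rs p E1).ncard hpp).trans c1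
  have d2 := (Nat.mul_le_mul_left (Rs p E2).ncard hpp).trans c2
  have d6 := (Nat.mul_le_mul_left (Rs p E6).ncard hpp).trans c6
  have s7 : (Rs p {a : Fin n → Fin m → ℤ | ¬ ((∀ i, ‖sv β (a i)‖ = 1) ∧ Di e A (gv β ν a) ∧
      Gen p Log u₁ e A (gv β ν a))}).ncard ≤ (Rs p E1).ncard + (Rs p E2).ncard +
      (Rs p E3).ncard + (Rs p E4).ncard + (Rs p E5).ncard + (Rs p E6).ncard + (Rs p E7).ncard := by
    omega
  refine (Nat.mul_le_mul_right p s7).trans ?_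
  have e1 : ((Rs p E1).ncard + (Rs p E2).ncard +
      (Rs p E3).ncard + (Rs p E4).ncard + (Rs p E5).ncard + (Rs p E6).ncard +
      (Rs p E7).ncard) * p = (Rs p E1).ncard * p + (Rs p E2).ncard * p +
      (Rs p E3).ncard * p + (Rs p E4).ncard * p + (Rs p E5).ncard * p + (Rs p E6).ncard * p +
      (Rs p E7).ncard * p := by ring
  have e2 : (n + n ^ 2 + 3 * (n * 25 ^ n) + n ^ 4 * E + (n ^ 2 + n ^ 4)) * p ^ (2 * (n * m)) =
      n * p ^ (2 * (n * m)) + n ^ 2 * p ^ (2 * (n * m)) + n * 25 ^ n * p ^ (2 * (n * m)) +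
      n * 25 ^ n * p ^ (2 * (n * m)) + n * 25 ^ n * p ^ (2 * (n * m)) +
      n ^ 4 * E * p ^ (2 * (n * m)) + (n ^ 2 + n ^ 4) * p ^ (2 * (n * m)) := by ring
  rw [e1, e2]
  exact Nat.add_le_add (Nat.add_le_add (Nat.add_le_add (Nat.add_le_add (Nat.add_le_add
    (Nat.add_le_add d1 d2) c3) c4) c5) d6) c7

end Pool.Agent.ZPK.H77
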