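import Pool.Agent.ZPK.StmtsR2

set_option autoImplicit false

namespace Pool.Agent.ZPK.H77.INA

open Pool.Agent.ZPT Pool.Agent.ZP3 Pool.Agent.ZPK

theorem val {p : ℕ} (hp : p.Prime) (h5 : 5 ≤ p) (s : ℚ) (y c : ℕ) (hy0 : 0 < y) (hyp : y < p)
    (hc1 : 1 ≤ c) (hc2 : c ≤ 2) (h : (y : ℚ) * s = ((padicValRat p s : ℤ) : ℚ) + c)
    (hpos : 0 ≤ padicValRat p s) : padicValRat p s = 0 := by
  have := Fact.mk hp
  obtain ⟨b, hb⟩ := Int.eq_ofNat_of_zero_le hpos
  rw [hb] at h ⊢
  have hk : (y : ℚ) * s = ((b + c : ℕ) : ℚ) := by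
    rw [h]
    push_cast
    ring
  have hy0' : (y : ℚ) ≠ 0 := by exact_mod_cast hy0.ne'
  have hs0 : s ≠ 0 := by
    intro h0
    rw [h0, mul_zero] at hk
    have : (b + c : ℕ) = 0 := by exact_mod_cast hk.symm
    omega
  have h1 := padicValRat.mul (p := p) hy0' hs0
  have h2 : padicValRat p (y : ℚ) = 0 := by
    rw [padicValRat.of_nat]
    have : padicValNat p y = 0 :=
      padicValNat.eq_zero_of_not_dvd (fun hd => absurd (Nat.le_of_dvd hy0 hd) (by omega))
    rw [this]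
    rfl
  rw [h2, zero_add, hk, padicValRat.of_nat, hb] at h1
  have h3 : padicValNat p (b + c) = b := by exact_mod_cast h1
  have h4 : p ^ padicValNat p (b + c) ∣ (b + c) := pow_padicValNat_dvd
  rw [h3] at h4
  have h6 : p ^ b ≤ b + c := Nat.le_of_dvd (by omega) h4
  have h7 : 5 ^ b ≤ p ^ b := Nat.pow_le_pow_left h5 b
  have h8 : 1 + 4 * b ≤ 5 ^ b := by
    have : ∀ b : ℕ, 1 + 4 * b ≤ 5 ^ b := by
      intro b
      induction b with
      | zero => norm_num
      | succ n ih =>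
        rw [pow_succ]
        omega
    exact this b
  have h9 : b = 0 := by omega
  rw [h9]
  rfl

theorem ina : InaStmt := by
  intro p E hp hE hpE K _ _ _ hExt s e e' m N t κ δ H τ μ hs ht he heE hee' hLa hSm hδ hτ hH hκ
    hμ hzero hmain
  have := Fact.mk hp
  have hEp : 2 * E < p := by nlinarith
  have hp5 : 5 ≤ p := by nlinarith
  have hp1 : (1 : ℝ) < (p : ℝ) := by exact_mod_cast hp.one_lt
  have hp0 : (0 : ℝ) < (p : ℝ) := by linarith
  have hsR : (0 : ℝ) < (s : ℝ) := by exact_mod_cast hs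
  have htj : ∀ j : ℕ, ‖t‖ ^ j = (p : ℝ) ^ (-((s : ℝ) * j)) := by
    intro j
    rw [ht, ← Real.rpow_natCast, ← Real.rpow_mul hp0.le, neg_mul]
  have es : 1 < (s : ℝ) * e := by
    unfold La at hLa
    rw [htj, ← Real.rpow_neg_one, Real.rpow_lt_rpow_left_iff hp1] at hLa
    linarith
  have es' : (s : ℝ) * e' < 1 := by
    unfold Sm at hSm
    rw [htj, ← Real.rpow_neg_one, Real.rpow_lt_rpow_left_iff hp1] at hSm
    linarith
  set β : ℤ := padicValRat p s with hβ
  have hsn : ‖((s : ℚ) : K)‖ = (p : ℝ) ^ (-(β : ℝ)) := by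
    rw [hExt s, padicNorm.eq_zpow_of_nonzero hs.ne', Rat.cast_zpow, Rat.cast_natCast, ← hβ]
    rw [← Real.rpow_intCast]
    push_cast
    rfl
  have hpn : ‖(p : K)‖ = (p : ℝ) ^ (-1 : ℝ) := by
    have h := hExt (p : ℚ)
    rw [Rat.cast_natCast, padicNorm.padicNorm_p_of_prime, Rat.cast_inv, Rat.cast_natCast] at h
    rw [h, Real.rpow_neg_one]
  have ha : ‖((s : ℚ) : K) * (δ / t ^ e')‖ = (p : ℝ) ^ ((s : ℝ) * e' - 1 - β) := by
    rw [norm_mul, norm_div, norm_pow, htj, hδ, hsn, ← Real.rpow_neg_one, ← Real.rpow_sub hp0,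
      ← Real.rpow_add hp0]
    congr 1
    ring
  have hd' : ‖t ^ e / (p : K)‖ = (p : ℝ) ^ (1 - (s : ℝ) * e) := by
    rw [norm_div, norm_pow, htj, hpn, ← Real.rpow_sub hp0]
    congr 1
    ring
  have hd : ‖τ * (t ^ e / (p : K))‖ = (p : ℝ) ^ (1 - (s : ℝ) * e) := by
    rw [norm_mul, hτ, one_mul, hd']
  have hc : ‖H * t ^ m‖ = ‖H‖ * ‖t‖ ^ m := by rw [norm_mul, norm_pow]
  have hH' : 0 < ‖H * t ^ m‖ → (1 ≤ m ∧ m < e) ∧ ‖H * t ^ m‖ = (p : ℝ) ^ (-((s : ℝ) * m)) := by
    intro h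
    rcases hH with h0 | h0
    · rw [h0, zero_mul, norm_zero] at h
      exact absurd h (lt_irrefl _)
    · refine ⟨⟨h0.1, h0.2.1⟩, ?_⟩
      rw [hc, h0.2.2, one_mul, htj]
  have hκ' : 0 < ‖κ‖ → 1 ≤ N ∧ ‖κ‖ = (p : ℝ) ^ (-(N : ℝ)) := by
    intro h
    rcases hκ with h0 | h0
    · rw [h0, norm_zero] at h
      exact absurd h (lt_irrefl _)
    · refine ⟨h0.1, ?_⟩
      rw [h0.2, Real.rpow_neg hp0.le, Real.rpow_natCast, inv_pow]
  have inj : ∀ x y : ℝ, (p : ℝ) ^ x = (p : ℝ) ^ y → x = y := fun x y h =>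
    (Real.rpow_right_inj hp0 hp1.ne').1 h
  have hapos : 0 < ‖((s : ℚ) : K) * (δ / t ^ e')‖ := by rw [ha]; exact Real.rpow_pos_of_pos hp0 _
  have hdpos : 0 < ‖τ * (t ^ e / (p : K))‖ := by rw [hd]; exact Real.rpow_pos_of_pos hp0 _
  rw [← hc, hd', ← hd] at hmain
  generalize ha' : ((s : ℚ) : K) * (δ / t ^ e') = a at *
  generalize hc' : H * t ^ m = c at *
  generalize hdd : τ * (t ^ e / (p : K)) = d at *
  have hX : 0 < max ‖a‖ (max ‖c‖ ‖d‖) := lt_of_lt_of_le hapos (le_max_left _ _)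
  have hlt : ‖a - κ - (c + d)‖ < max ‖a‖ (max ‖c‖ ‖d‖) := by
    refine lt_of_le_of_lt hmain ?_
    calc μ * max ‖a‖ (max ‖c‖ ‖d‖) < 1 * max ‖a‖ (max ‖c‖ ‖d‖) :=
          mul_lt_mul_of_pos_right hμ hX
      _ = _ := one_mul _
  have heR : (1 : ℝ) ≤ (e : ℝ) := by exact_mod_cast he
  have he'0 : (0 : ℝ) ≤ (e' : ℝ) := Nat.cast_nonneg _
  by_cases h1 : 1 ≤ e' ∧ ‖a‖ = ‖κ‖
  · exfalso
    obtain ⟨g1, g2⟩ := h1
    obtain ⟨g3, g4⟩ := hκ' (by rw [← g2]; exact hapos)
    rw [ha, g4] at g2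
    have g5 := inj _ _ g2
    have g6 : (s : ℝ) * e' = ((1 + β - N : ℤ) : ℝ) := by
      push_cast
      linarith
    have g7 : (0 : ℝ) < (s : ℝ) * e' := mul_pos hsR (by exact_mod_cast g1)
    rw [g6] at g7 es'
    have g8 : (0 : ℤ) < 1 + β - N := by exact_mod_cast g7
    have g9 : (1 + β - N : ℤ) < 1 := by exact_mod_cast es'
    omega
  · have hx : ‖a - κ‖ = max ‖a‖ ‖κ‖ := by
      rcases Nat.eq_zero_or_pos e' with h0 | h0
      · have h3 := hzero h0
        have h4 : ((s : ℚ) : K) * δ = a := by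
          rw [← ha', h0, pow_zero, div_one]
        rw [h4] at h3
        exact h3
      · have hne : ‖a‖ ≠ ‖-κ‖ := by
          rw [norm_neg]
          exact fun h => h1 ⟨h0, h⟩
        rw [sub_eq_add_neg, IsUltrametricDist.norm_add_eq_max_of_norm_ne_norm hne, norm_neg]
    by_cases h2 : ‖c‖ = ‖d‖
    · obtain ⟨g1, g2⟩ := hH' (by rw [h2]; exact hdpos)
      rw [g2, hd] at h2
      have g3 := inj _ _ h2
      refine ⟨1, e - m, by omega, by omega, by omega, ?_⟩
      have g4 : (((e - m : ℕ) : ℚ) * s : ℚ) = ((1 : ℕ) : ℚ) := by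
        rw [Nat.cast_sub g1.2.le]
        have : (((e : ℝ) - (m : ℝ)) * (s : ℝ)) = 1 := by linarith
        exact_mod_cast this
      exact g4
    · have hy : ‖c + d‖ = max ‖c‖ ‖d‖ := IsUltrametricDist.norm_add_eq_max_of_norm_ne_norm h2
      have hxy : ‖a - κ‖ = ‖c + d‖ := by
        by_contra hne
        have hne' : ‖a - κ‖ ≠ ‖-(c + d)‖ := by rwa [norm_neg]
        have h3 : ‖a - κ - (c + d)‖ = max ‖a - κ‖ ‖c + d‖ := by
          rw [sub_eq_add_neg (a - κ), IsUltrametricDist.norm_add_eq_max_of_norm_ne_norm hne',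
            norm_neg]
        rw [h3, hx, hy] at hlt
        have h4 : max ‖a‖ (max ‖c‖ ‖d‖) ≤ max (max ‖a‖ ‖κ‖) (max ‖c‖ ‖d‖) :=
          max_le_max (le_max_left _ _) (le_refl _)
        exact absurd hlt (not_lt.2 h4)
      rw [hx, hy] at hxy
      rcases max_choice ‖a‖ ‖κ‖ with k1 | k1
      · rw [k1] at hxy
        rcases max_choice ‖c‖ ‖d‖ with k2 | k2
        · rw [k2] at hxy
          obtain ⟨g1, g2⟩ := hH' (by rw [← hxy]; exact hapos)
          rw [ha, g2] at hxy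
          have g3 := inj _ _ hxy
          have g4 : (((m + e' : ℕ) : ℝ) * (s : ℝ)) = ((β : ℤ) : ℝ) + ((1 : ℕ) : ℝ) := by
            push_cast
            linarith
          have g5 : (((m + e' : ℕ) : ℚ) * s) = ((β : ℤ) : ℚ) + ((1 : ℕ) : ℚ) := by
            exact_mod_cast g4
          have hm : 0 < m + e' := by omega
          have g6 : (0 : ℝ) < ((m + e' : ℕ) : ℝ) * (s : ℝ) := mul_pos (by exact_mod_cast hm) hsR
          rw [g4] at g6
          have g7 : (0 : ℤ) < β + 1 := by exact_mod_cast g6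
          have g8 := val hp hp5 s (m + e') 1 hm (by omega) (le_refl _) (by norm_num) g5
            (by rw [← hβ]; omega)
          refine ⟨1, m + e', by omega, by omega, by omega, ?_⟩
          rw [g5, hβ, g8]
          norm_num
        · rw [k2, ha, hd] at hxy
          have g3 := inj _ _ hxy
          have g4 : (((e + e' : ℕ) : ℝ) * (s : ℝ)) = ((β : ℤ) : ℝ) + ((2 : ℕ) : ℝ) := by
            push_cast
            linarith
          have g5 : (((e + e' : ℕ) : ℚ) * s) = ((β : ℤ) : ℚ) + ((2 : ℕ) : ℚ) := by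
            exact_mod_cast g4
          have hm : 0 < e + e' := by omega
          have g6 : (1 : ℝ) < ((e + e' : ℕ) : ℝ) * (s : ℝ) := by
            push_cast
            nlinarith
          rw [g4] at g6
          have g7 : (1 : ℤ) < β + 2 := by exact_mod_cast g6
          have g8 := val hp hp5 s (e + e') 2 hm (by omega) (by norm_num) (le_refl _) g5
            (by rw [← hβ]; omega)
          refine ⟨2, e + e', by omega, by omega, by omega, ?_⟩
          rw [g5, hβ, g8]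
          norm_num
      · have hκpos : 0 < ‖κ‖ := by
          rw [← k1]
          exact lt_of_lt_of_le hapos (le_max_left _ _)
        obtain ⟨n1, n2⟩ := hκ' hκpos
        rw [k1] at hxy
        rcases max_choice ‖c‖ ‖d‖ with k2 | k2
        · rw [k2] at hxy
          obtain ⟨g1, g2⟩ := hH' (by rw [← hxy]; exact hκpos)
          rw [n2, g2] at hxy
          have g3 := inj _ _ hxy
          refine ⟨N, m, by omega, by omega, by omega, ?_⟩
          have g4 : ((m : ℝ) * (s : ℝ)) = (N : ℝ) := by linarith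
          exact_mod_cast g4
        · rw [k2, n2, hd] at hxy
          have g3 := inj _ _ hxy
          refine ⟨N + 1, e, by omega, by omega, by omega, ?_⟩
          have g4 : ((e : ℝ) * (s : ℝ)) = ((N + 1 : ℕ) : ℝ) := by
            push_cast
            linarith
          exact_mod_cast g4

end Pool.Agent.ZPK.H77.INA
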